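import Pool.Agent.H20.RCC.Stmts

/-!
# Row DEC of the board `rcc`: decomposition of the sorted word of a state
-/

set_option autoImplicit false

namespace Pool.RCC

theorem DEC_thm : DECStmt := by
  intro k p q v hv
  obtain ⟨hk, -, -, h1, h2⟩ := hv
  refine ⟨?_, ?_⟩
  · intro hk1
    have hlo : lo k = k := by
      unfold lo
      rw [if_neg (by omega)]
    rw [hlo] at h1
    unfold Hi Lw
    rw [List.reverse_reverse]
    unfold wd cv
    rw [hlo]
    interval_cases k <;>
      simp [List.filter_append, h1, h2]
  · rintro rfl
    have hlo : lo 0 = 9 := rfl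
    rw [hlo] at h1
    unfold wd cv
    rw [hlo]
    simp [h1, h2]

end Pool.RCC
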